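import Mathlib
import Pool.Agent.H24.GN.AeInv

/-!
# Minimal finitely generated groups of C² circle diffeomorphisms are Lebesgue ergodic

The circle is `Circle ⊆ ℂ`, parametrised by `Circle.exp : t ↦ exp (i t)`; a subset `A` of the circle
is Lebesgue measurable (Lebesgue null) iff `⇑Circle.exp ⁻¹' A ⊆ ℝ` is so.
-/

set_option autoImplicit false
open Set Filter Topology MeasureTheory
open scoped Manifold ContDiff

namespace Pool.Agent.Results.MP_20ddb5_an.C2Ergodicity

/-- **The Ghys-Sullivan question has a positive answer**: let `G` be a finitely generated group of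
C² diffeomorphisms of the circle all of whose orbits are dense. If a Lebesgue measurable set `A` is
invariant up to Lebesgue null sets under every element of `G`, then `A` or its complement is
Lebesgue null. -/
theorem result (G : Subgroup (Circle ≃ₜ Circle))
    (hG : ∀ g ∈ G, ∃ f : Diffeomorph (𝓡 1) (𝓡 1) Circle Circle 2, ∀ x, f x = g x)
    (hfg : G.FG)
    (hmin : ∀ x : Circle, Dense {y : Circle | ∃ g ∈ G, g x = y})
    (A : Set Circle) (hA : NullMeasurableSet (⇑Circle.exp ⁻¹' A))
    (hinv : ∀ g ∈ G, volume (⇑Circle.exp ⁻¹' (symmDiff (⇑g ⁻¹' A) A)) = 0) :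
    volume (⇑Circle.exp ⁻¹' A) = 0 ∨ volume (⇑Circle.exp ⁻¹' Aᶜ) = 0 :=
  Pool.Agent.H24.GN.nul_main G hG hfg hmin A hA hinv

end Pool.Agent.Results.MP_20ddb5_an.C2Ergodicity
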